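import Pool.Agent.Run7.h204.VnMain

open Run7.h204.Vn

namespace Pool.Agent.Results.MP_d06a13_ag.VNumberExceedsDepth

/-- Q1 answered in the negative, over every field and with an arbitrarily large gap: for every
field `K` and every `k ≥ 1` there is a squarefree monomial ideal `I` in the polynomial ring in
`2k + 2` variables over `K` with `depth(R/I) = 1` and `v(I) = k` (so `v(I) > depth(R/I)` for
`k ≥ 2`). -/
theorem result (K : Type) [Field K] (k : ℕ) (hk : 1 ≤ k) :
    ∃ I : Ideal (MvPolynomial (Fin (k + 1) ⊕ Fin (k + 1)) K),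
      IsSquarefreeMonomialIdeal I ∧ depthQuot I = 1 ∧ vNumber I = k ∧
        (2 ≤ k → depthQuot I < vNumber I) := by
  refine ⟨ideal K k, isSqfree hk, depth_eq hk, vNumber_eq, fun h => ?_⟩
  rw [depth_eq hk, vNumber_eq]
  exact_mod_cast h

end Pool.Agent.Results.MP_d06a13_ag.VNumberExceedsDepth
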